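import Pool.Agent.helper22.DL.SpecE2

/-! # Project dl, stage 2, EPS: the coordinates at the roots of unity -/

namespace Pool.Agent.DL

open Matrix Complex MeasureTheory Set Filter Topology
open scoped ComplexOrder Manifold ContDiff ComplexConjugate

noncomputable section

theorem EPS_ne {y : ℂ} (hy : y ∈ Metric.ball (0 : ℂ) 1) : 1 + y ^ 2 ≠ 0 ∧ 1 - y ^ 2 ≠ 0 := by
  have hy1 : ‖y‖ < 1 := by simpa using hy
  have h2 : ‖y ^ 2‖ < 1 := by
    rw [norm_pow]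
    exact pow_lt_one₀ (norm_nonneg _) hy1 two_ne_zero
  constructor
  · intro h
    have e : y ^ 2 = -1 := by linear_combination h
    rw [e] at h2
    simp at h2
  · intro h
    have e : y ^ 2 = 1 := by linear_combination -h
    rw [e] at h2
    simp at h2

theorem EPS_re {y : ℂ} (hy : y ∈ Metric.ball (0 : ℂ) 1) : 0 < (mm (y ^ 2)).re := by
  have hy1 : ‖y‖ < 1 := by simpa using hy
  have h2 : ‖y ^ 2‖ < 1 := by
    rw [norm_pow]
    exact pow_lt_one₀ (norm_nonneg _) hy1 two_ne_zero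
  obtain ⟨hne, -⟩ := EPS_ne hy
  set u := y ^ 2 with hu
  have hn : 0 < normSq (1 + u) := normSq_pos.2 hne
  have hu2 : normSq u < 1 := by
    rw [normSq_eq_norm_sq]
    exact pow_lt_one₀ (norm_nonneg _) h2 two_ne_zero
  unfold mm
  rw [div_re, ← add_div]
  apply div_pos _ hn
  rw [normSq_apply] at hu2
  simp only [sub_re, one_re, add_re, sub_im, one_im, add_im]
  nlinarith

theorem EPS_slit {y : ℂ} (hy : y ∈ Metric.ball (0 : ℂ) 1) : mm (y ^ 2) ∈ slitPlane := Or.inl (EPS_re hy)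

theorem EPS_m0 {y : ℂ} (hy : y ∈ Metric.ball (0 : ℂ) 1) : mm (y ^ 2) ≠ 0 := slitPlane_ne_zero (EPS_slit hy)

theorem EPS_r4 (w : ℂ) : r4 w ^ 4 = w := by
  unfold r4
  exact Complex.cpow_nat_inv_pow w (by norm_num)

theorem EPS_r40 {y : ℂ} (hy : y ∈ Metric.ball (0 : ℂ) 1) : r4 (mm (y ^ 2)) ≠ 0 := by
  intro h
  have := EPS_r4 (mm (y ^ 2))
  rw [h] at this
  exact EPS_m0 hy (by rw [← this]; norm_num)

theorem EPS_mder {y : ℂ} (hy : y ∈ Metric.ball (0 : ℂ) 1) :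
    HasDerivAt (fun y : ℂ => mm (y ^ 2)) (-4 * y / (1 + y ^ 2) ^ 2) y := by
  obtain ⟨hne, -⟩ := EPS_ne hy
  have h1 : HasDerivAt (fun y : ℂ => y ^ 2) (2 * y) y := by simpa using hasDerivAt_pow 2 y
  have h2 : HasDerivAt (fun y : ℂ => 1 - y ^ 2) (-(2 * y)) y := h1.const_sub 1
  have h3 : HasDerivAt (fun y : ℂ => 1 + y ^ 2) (2 * y) y := h1.const_add 1
  have h4 := h2.div h3 hne
  have e : (-(2 * y) * (1 + y ^ 2) - (1 - y ^ 2) * (2 * y)) / (1 + y ^ 2) ^ 2 = -4 * y / (1 + y ^ 2) ^ 2 := by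
    congr 1
    ring
  rw [e] at h4
  exact h4

theorem EPS_rder {y : ℂ} (hy : y ∈ Metric.ball (0 : ℂ) 1) :
    HasDerivAt (fun y : ℂ => r4 (mm (y ^ 2))) (-r4 (mm (y ^ 2)) * y / (1 - y ^ 4)) y := by
  obtain ⟨hne, hne'⟩ := EPS_ne hy
  have h := (EPS_mder hy).cpow_const (c := (((4 : ℕ) : ℂ)⁻¹)) (EPS_slit hy)
  have e : (((4 : ℕ) : ℂ)⁻¹) * mm (y ^ 2) ^ ((((4 : ℕ) : ℂ)⁻¹) - 1) * (-4 * y / (1 + y ^ 2) ^ 2) =
      -r4 (mm (y ^ 2)) * y / (1 - y ^ 4) := by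
    rw [Complex.cpow_sub _ _ (EPS_m0 hy), Complex.cpow_one]
    change (((4 : ℕ) : ℂ)⁻¹) * (r4 (mm (y ^ 2)) / mm (y ^ 2)) * (-4 * y / (1 + y ^ 2) ^ 2) = _
    generalize r4 (mm (y ^ 2)) = q
    have h4 : (1 : ℂ) - y ^ 4 = (1 - y ^ 2) * (1 + y ^ 2) := by ring
    unfold mm
    rw [h4]
    push_cast
    field_simp
  rw [e] at h
  exact h

theorem EPS_psider (d : ℂ) {y : ℂ} (hy : y ∈ Metric.ball (0 : ℂ) 1) :
    HasDerivAt (psi d) (-psi d y * y / (1 - y ^ 4)) y := by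
  have h := (EPS_rder hy).const_mul d
  have e : d * (-r4 (mm (y ^ 2)) * y / (1 - y ^ 4)) = -psi d y * y / (1 - y ^ 4) := by
    unfold psi
    ring
  rw [e] at h
  exact h

theorem EPS_psi8 {d : ℂ} (hd : d ^ 8 = 1) {y : ℂ} (hy : y ∈ Metric.ball (0 : ℂ) 1) :
    1 - psi d y ^ 8 = (2 * y / (1 + y ^ 2)) ^ 2 := by
  obtain ⟨hne, -⟩ := EPS_ne hy
  have e : psi d y ^ 8 = d ^ 8 * (r4 (mm (y ^ 2)) ^ 4) ^ 2 := by
    unfold psi
    ring
  rw [e, EPS_r4, hd]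
  unfold mm
  field_simp
  ring

theorem EPS : EPS_stmt := by
  intro d hd
  have hd0 : d ≠ 0 := by
    intro h
    rw [h] at hd
    norm_num at hd
  have hd1 : ‖d‖ = 1 := by
    have : ‖d‖ ^ 8 = 1 := by rw [← norm_pow, hd, norm_one]
    exact (pow_eq_one_iff_of_nonneg (norm_nonneg _) (by norm_num)).1 this
  have hr1 : r4 (mm ((0 : ℂ) ^ 2)) = 1 := by
    unfold r4 mm
    norm_num
  have hpsi0 : ∀ y ∈ Metric.ball (0 : ℂ) 1, psi d y ≠ 0 := fun y hy => mul_ne_zero hd0 (EPS_r40 hy)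
  have hNs : ∀ y ∈ Metric.ball (0 : ℂ) 1, y ≠ 0 → (1 - psi d y ^ 8) ≠ 0 := by
    intro y hy hy0
    rw [EPS_psi8 hd hy]
    exact pow_ne_zero 2 (div_ne_zero (mul_ne_zero two_ne_zero hy0) (EPS_ne hy).1)
  refine ⟨?_, fun y hy => (EPS_psider d hy).differentiableAt.differentiableWithinAt, fun y hy => ?_, ?_⟩
  · unfold psi
    rw [hr1, mul_one]
  · refine ⟨EPS_psi8 hd hy, hpsi0 y hy, (EPS_psider d hy).deriv, fun hy0 h => ?_⟩
    apply hNs y hy hy0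
    rw [h, sub_self]
  · intro κ hκ
    have key : ∀ y ∈ Metric.ball (0 : ℂ) 1, κ * ‖deriv (psi d) y‖ ^ 2 = Wr κ y * ‖1 - psi d y ^ 8‖ := by
      intro y hy
      obtain ⟨hne, hne'⟩ := EPS_ne hy
      have n1 : ‖1 + y ^ 2‖ ≠ 0 := norm_ne_zero_iff.2 hne
      have n2 : ‖1 - y ^ 2‖ ≠ 0 := norm_ne_zero_iff.2 hne'
      have h4 : (1 : ℂ) - y ^ 4 = (1 - y ^ 2) * (1 + y ^ 2) := by ring
      rw [(EPS_psider d hy).deriv, EPS_psi8 hd hy, h4]
      unfold Wr psi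
      simp only [norm_div, norm_mul, norm_neg, norm_pow, hd1, one_mul, Complex.norm_ofNat]
      field_simp
      ring
    refine ⟨?_, ?_, fun y hy => ⟨?_, key y hy, fun hy0 => ?_⟩⟩
    · have h1 : DifferentiableOn ℂ (fun y : ℂ => r4 (mm (y ^ 2))) (Metric.ball 0 1) :=
        fun y hy => (EPS_rder hy).differentiableAt.differentiableWithinAt
      have h2 : ContDiffOn ℝ ∞ (fun y : ℂ => r4 (mm (y ^ 2))) (Metric.ball 0 1) :=
        (h1.contDiffOn Metric.isOpen_ball).restrict_scalars ℝ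
      have h3 : ContDiffOn ℝ ∞ (fun y : ℂ => 1 - y ^ 2) (Metric.ball 0 1) :=
        (contDiff_const.sub (contDiff_id.pow 2)).contDiffOn
      have h4 : ContDiffOn ℝ ∞ (fun y : ℂ => κ * ‖r4 (mm (y ^ 2))‖ ^ 2) (Metric.ball 0 1) :=
        contDiffOn_const.mul (h2.norm_sq ℝ)
      have h5 : ContDiffOn ℝ ∞ (fun y : ℂ => 4 * ‖1 - y ^ 2‖ ^ 2) (Metric.ball 0 1) :=
        contDiffOn_const.mul (h3.norm_sq ℝ)
      refine h4.div h5 fun y hy => ?_
      have := norm_ne_zero_iff.2 (EPS_ne hy).2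
      positivity
    · unfold Wr
      rw [hr1]
      norm_num
    · have a := norm_ne_zero_iff.2 (EPS_ne hy).2
      have b := norm_ne_zero_iff.2 (EPS_r40 hy)
      unfold Wr
      positivity
    · have hn : ‖1 - psi d y ^ 8‖ ≠ 0 := norm_ne_zero_iff.2 (hNs y hy hy0)
      unfold Wt
      rw [div_mul_eq_mul_div, key y hy, mul_div_assoc, div_self hn, mul_one]

end

end Pool.Agent.DL
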