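import Pool.Agent.helper22.DL.SpecE1

/-! # Project dl, stage 2, ERK: regularity, step 2 (`C¹` solutions are `C²`) -/

namespace Pool.Agent.DL

open Matrix Complex MeasureTheory Set Filter Topology
open scoped ComplexOrder Manifold ContDiff ComplexConjugate

noncomputable section

/-- Local Hölder continuity with exponent `1/2`. -/
def ERK_H {E : Type*} [NormedAddCommGroup E] (f : ℂ → E) (z₀ : ℂ) : Prop :=
  ∃ C r : ℝ, 0 ≤ C ∧ 0 < r ∧ ∀ z ∈ Metric.ball z₀ r, ∀ z' ∈ Metric.ball z₀ r,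
    ‖f z - f z'‖ ≤ C * ‖z - z'‖ ^ (1 / 2 : ℝ)

theorem ERK_H_congr {E : Type*} [NormedAddCommGroup E] {f g : ℂ → E} {z₀ : ℂ} {r₀ : ℝ} (h0 : 0 < r₀)
    (h : ∀ z ∈ Metric.ball z₀ r₀, f z = g z) (hf : ERK_H f z₀) : ERK_H g z₀ := by
  obtain ⟨C, r, hC, hr, H⟩ := hf
  refine ⟨C, min r r₀, hC, lt_min hr h0, fun z hz z' hz' => ?_⟩
  have h1 := Metric.ball_subset_ball (min_le_left r r₀) hz
  have h2 := Metric.ball_subset_ball (min_le_right r r₀) hz
  have h3 := Metric.ball_subset_ball (min_le_left r r₀) hz'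
  have h4 := Metric.ball_subset_ball (min_le_right r r₀) hz'
  rw [← h z h2, ← h z' h4]
  exact H z h1 z' h3

theorem ERK_H_lip {E : Type*} [NormedAddCommGroup E] {f : ℂ → E} {z₀ : ℂ} {K r : ℝ} (hK : 0 ≤ K) (hr : 0 < r)
    (h : ∀ z ∈ Metric.ball z₀ r, ∀ z' ∈ Metric.ball z₀ r, ‖f z - f z'‖ ≤ K * ‖z - z'‖) : ERK_H f z₀ := by
  refine ⟨K, min r (1 / 2), hK, lt_min hr (by norm_num), fun z hz z' hz' => ?_⟩
  have h1 := Metric.ball_subset_ball (min_le_left r (1 / 2)) hz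
  have h2 := Metric.ball_subset_ball (min_le_right r (1 / 2)) hz
  have h3 := Metric.ball_subset_ball (min_le_left r (1 / 2)) hz'
  have h4 := Metric.ball_subset_ball (min_le_right r (1 / 2)) hz'
  refine (h z h1 z' h3).trans (mul_le_mul_of_nonneg_left ?_ hK)
  apply Real.self_le_rpow_of_le_one (norm_nonneg _) _ (by norm_num)
  rw [← dist_eq_norm]
  have := dist_triangle_right z z' z₀
  rw [Metric.mem_ball] at h2 h4
  linarith

theorem ERK_H_of_contDiffAt {E : Type*} [NormedAddCommGroup E] [NormedSpace ℝ E] {f : ℂ → E} {z₀ : ℂ}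
    (hf : ContDiffAt ℝ 1 f z₀) : ERK_H f z₀ := by
  obtain ⟨K, t, ht, hK⟩ := hf.exists_lipschitzOnWith
  obtain ⟨r, hr, hrt⟩ := Metric.mem_nhds_iff.1 ht
  refine ERK_H_lip (K := K) K.2 hr fun z hz z' hz' => ?_
  have := hK.dist_le_mul z (hrt hz) z' (hrt hz')
  rwa [dist_eq_norm, dist_eq_norm] at this

theorem ERK_H_add {E : Type*} [NormedAddCommGroup E] {f g : ℂ → E} {z₀ : ℂ}
    (hf : ERK_H f z₀) (hg : ERK_H g z₀) : ERK_H (fun z => f z + g z) z₀ := by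
  obtain ⟨C, r, hC, hr, H⟩ := hf
  obtain ⟨C', r', hC', hr', H'⟩ := hg
  refine ⟨C + C', min r r', by positivity, lt_min hr hr', fun z hz z' hz' => ?_⟩
  have h1 := Metric.ball_subset_ball (min_le_left r r') hz
  have h2 := Metric.ball_subset_ball (min_le_right r r') hz
  have h3 := Metric.ball_subset_ball (min_le_left r r') hz'
  have h4 := Metric.ball_subset_ball (min_le_right r r') hz'
  have e : f z + g z - (f z' + g z') = (f z - f z') + (g z - g z') := by abel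
  rw [e, add_mul]
  exact (norm_add_le _ _).trans (add_le_add (H z h1 z' h3) (H' z h2 z' h4))

theorem ERK_H_bdd {E : Type*} [NormedAddCommGroup E] {f : ℂ → E} {z₀ : ℂ} (hf : ERK_H f z₀) :
    ∃ B r : ℝ, 0 ≤ B ∧ 0 < r ∧ ∀ z ∈ Metric.ball z₀ r, ‖f z‖ ≤ B := by
  obtain ⟨C, r, hC, hr, H⟩ := hf
  refine ⟨‖f z₀‖ + C * r ^ (1 / 2 : ℝ), r, by positivity, hr, fun z hz => ?_⟩
  have h1 := H z hz z₀ (Metric.mem_ball_self hr)
  have h2 : ‖z - z₀‖ ^ (1 / 2 : ℝ) ≤ r ^ (1 / 2 : ℝ) := by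
    apply Real.rpow_le_rpow (norm_nonneg _) _ (by norm_num)
    rw [← dist_eq_norm]
    exact (Metric.mem_ball.1 hz).le
  have h3 : ‖f z‖ ≤ ‖f z₀‖ + ‖f z - f z₀‖ := by
    have := norm_add_le (f z₀) (f z - f z₀)
    simpa using this
  have h4 := mul_le_mul_of_nonneg_left h2 hC
  linarith

theorem ERK_H_clm {E F : Type*} [NormedAddCommGroup E] [NormedSpace ℝ E] [NormedAddCommGroup F] [NormedSpace ℝ F]
    {A : ℂ → E →L[ℝ] F} {D : ℂ → E} {z₀ : ℂ} (hA : ERK_H A z₀) (hD : ERK_H D z₀) :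
    ERK_H (fun z => A z (D z)) z₀ := by
  obtain ⟨BA, rA, hBA, hrA, HBA⟩ := ERK_H_bdd hA
  obtain ⟨BD, rD, hBD, hrD, HBD⟩ := ERK_H_bdd hD
  obtain ⟨CA, sA, hCA, hsA, HA⟩ := hA
  obtain ⟨CD, sD, hCD, hsD, HD⟩ := hD
  set r := min (min rA rD) (min sA sD) with hr
  have r1 : r ≤ rA := (min_le_left _ _).trans (min_le_left _ _)
  have r2 : r ≤ rD := (min_le_left _ _).trans (min_le_right _ _)
  have r3 : r ≤ sA := (min_le_right _ _).trans (min_le_left _ _)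
  have r4 : r ≤ sD := (min_le_right _ _).trans (min_le_right _ _)
  refine ⟨BA * CD + CA * BD, r, by positivity, lt_min (lt_min hrA hrD) (lt_min hsA hsD),
    fun z hz z' hz' => ?_⟩
  have e : A z (D z) - A z' (D z') = A z (D z - D z') + (A z - A z') (D z') := by
    simp only [map_sub, _root_.sub_apply]
    abel
  have b1 : ‖A z (D z - D z')‖ ≤ BA * (CD * ‖z - z'‖ ^ (1 / 2 : ℝ)) :=
    ((A z).le_opNorm _).trans (mul_le_mul (HBA z (Metric.ball_subset_ball r1 hz))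
      (HD z (Metric.ball_subset_ball r4 hz) z' (Metric.ball_subset_ball r4 hz')) (norm_nonneg _) hBA)
  have b2 : ‖(A z - A z') (D z')‖ ≤ (CA * ‖z - z'‖ ^ (1 / 2 : ℝ)) * BD :=
    ((A z - A z').le_opNorm _).trans (mul_le_mul
      (HA z (Metric.ball_subset_ball r3 hz) z' (Metric.ball_subset_ball r3 hz'))
      (HBD z' (Metric.ball_subset_ball r2 hz')) (norm_nonneg _) (by positivity))
  rw [e]
  refine (norm_add_le _ _).trans ((add_le_add b1 b2).trans (le_of_eq (by ring)))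

theorem ERK_H_pi {n : ℕ} {E : Type*} [NormedAddCommGroup E] {f : ℂ → Fin n → E} {z₀ : ℂ}
    (h : ∀ i, ERK_H (fun z => f z i) z₀) : ERK_H f z₀ := by
  choose C r hC hr H using h
  obtain ⟨C₁, hC₁⟩ : ∃ C₁ : ℝ, 0 ≤ C₁ ∧ ∀ i, C i ≤ C₁ :=
    ⟨∑ i, C i, Finset.sum_nonneg fun i _ => hC i,
      fun i => Finset.single_le_sum (fun j _ => hC j) (Finset.mem_univ i)⟩
  obtain ⟨r₁, hr₁, hr₁'⟩ : ∃ r₁ : ℝ, 0 < r₁ ∧ ∀ i, r₁ ≤ r i := by
    rcases isEmpty_or_nonempty (Fin n) with hn | hn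
    · exact ⟨1, one_pos, fun i => hn.elim i⟩
    · obtain ⟨i₀, hi₀⟩ := Finite.exists_min r
      exact ⟨r i₀, hr i₀, hi₀⟩
  refine ⟨C₁, r₁, hC₁.1, hr₁, fun z hz z' hz' => ?_⟩
  rw [pi_norm_le_iff_of_nonneg (by have := hC₁.1; positivity)]
  intro i
  exact (H i z (Metric.ball_subset_ball (hr₁' i) hz) z' (Metric.ball_subset_ball (hr₁' i) hz')).trans
    (mul_le_mul_of_nonneg_right (hC₁.2 i) (by positivity))

theorem ERK_H_prod {E F : Type*} [NormedAddCommGroup E] [NormedAddCommGroup F] {f : ℂ → E} {g : ℂ → F} {z₀ : ℂ}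
    (hf : ERK_H f z₀) (hg : ERK_H g z₀) : ERK_H (fun z => (f z, g z)) z₀ := by
  obtain ⟨C, r, hC, hr, H⟩ := hf
  obtain ⟨C', r', hC', hr', H'⟩ := hg
  refine ⟨C + C', min r r', by positivity, lt_min hr hr', fun z hz z' hz' => ?_⟩
  have h1 := H z (Metric.ball_subset_ball (min_le_left r r') hz) z' (Metric.ball_subset_ball (min_le_left r r') hz')
  have h2 := H' z (Metric.ball_subset_ball (min_le_right r r') hz) z'
    (Metric.ball_subset_ball (min_le_right r r') hz')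
  have hp : 0 ≤ ‖z - z'‖ ^ (1 / 2 : ℝ) := by positivity
  rw [Prod.mk_sub_mk, Prod.norm_mk]
  apply max_le
  · nlinarith
  · nlinarith

theorem ERK_H_const {E : Type*} [NormedAddCommGroup E] (c : E) (z₀ : ℂ) : ERK_H (fun _ => c) z₀ :=
  ⟨0, 1, le_rfl, one_pos, fun z _ z' _ => by simp⟩

/-- The representation of the directional derivatives. -/
theorem ERK_rep (hB : ERB_stmt) (hE : ERE_stmt) {f φ : ℂ → ℂ} {Ω : Set ℂ} (hΩ : IsOpen Ω)
    (hf : ContDiffOn ℝ 1 f Ω) (hφ : ContDiffOn ℝ 1 φ Ω) {z₀ : ℂ} {ρ : ℝ} (hρ : 0 < ρ)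
    (hb : Metric.ball z₀ ρ ⊆ Ω) (hr : RepAt f φ z₀ ρ) (v : ℂ) :
    ∃ M ρ' : ℝ, 0 < ρ' ∧ Metric.ball z₀ ρ' ⊆ Ω ∧ (∀ z ∈ Metric.ball z₀ ρ', ‖fderiv ℝ φ z v‖ ≤ M) ∧
      ContinuousOn (fun z => fderiv ℝ φ z v) (Metric.ball z₀ ρ') ∧
      ∃ h : ℂ → ℂ, DifferentiableOn ℂ h (Metric.ball z₀ ρ') ∧
        ∀ z ∈ Metric.ball z₀ ρ', fderiv ℝ f z v = TC (fun ξ => fderiv ℝ φ ξ v) (Metric.ball z₀ ρ') z + h z := by
  have hc : Metric.closedBall z₀ (ρ / 2) ⊆ Metric.ball z₀ ρ := Metric.closedBall_subset_ball (by linarith)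
  have hcomp : IsCompact (Metric.closedBall z₀ (ρ / 2)) := isCompact_closedBall _ _
  obtain ⟨M, hM⟩ := hcomp.exists_bound_of_continuousOn (hφ.continuousOn.mono (hc.trans hb))
  have hdφ : ContinuousOn (fun z => fderiv ℝ φ z v) Ω :=
    (hφ.continuousOn_fderiv_of_isOpen hΩ le_rfl).clm_apply continuousOn_const
  obtain ⟨M', hM'⟩ := hcomp.exists_bound_of_continuousOn (hdφ.mono (hc.trans hb))
  obtain ⟨hint, h, hh, hrep⟩ := hr
  have hbb : Metric.ball z₀ (ρ / 2) ⊆ Metric.ball z₀ ρ := Metric.ball_subset_ball (by linarith)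
  obtain ⟨-, h₁, hh₁, hrep₁⟩ := hB f φ z₀ z₀ ρ (ρ / 2) M h (by linarith) hbb hint
    (fun z hz => hM z (Metric.ball_subset_closedBall hz)) hh (fun z hz => hrep z (hbb hz))
  obtain ⟨h₂, hh₂, hrep₂⟩ := hE φ z₀ (ρ / 2) (ρ / 4) M (by linarith) (by linarith)
    (hφ.mono (hbb.trans hb)) (fun z hz => hM z (Metric.ball_subset_closedBall hz)) v
  have hb4 : Metric.ball z₀ (ρ / 4) ⊆ Metric.ball z₀ (ρ / 2) := Metric.ball_subset_ball (by linarith)
  have hd1 : DifferentiableOn ℂ (deriv h₁) (Metric.ball z₀ (ρ / 2)) := hh₁.deriv Metric.isOpen_ball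
  refine ⟨M', ρ / 4, by linarith, (hb4.trans hbb).trans hb,
    fun z hz => hM' z (Metric.ball_subset_closedBall (hb4 hz)), hdφ.mono ((hb4.trans hbb).trans hb),
    fun z => h₂ z + deriv h₁ z * v, ?_, fun z hz => ?_⟩
  · exact hh₂.add ((hd1.mono hb4).mul_const v)
  · have hz2 := hb4 hz
    have hfd : DifferentiableAt ℝ f z :=
      (hf.differentiableOn (by norm_num)).differentiableAt (hΩ.mem_nhds (hb (hbb hz2)))
    have hhd : DifferentiableAt ℂ h₁ z := hh₁.differentiableAt (Metric.isOpen_ball.mem_nhds hz2)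
    have hev : TC φ (Metric.ball z₀ (ρ / 2)) =ᶠ[𝓝 z] fun w => f w - h₁ w := by
      filter_upwards [Metric.isOpen_ball.mem_nhds hz2] with w hw
      rw [hrep₁ w hw]
      ring
    have e1 : fderiv ℝ (TC φ (Metric.ball z₀ (ρ / 2))) z v = fderiv ℝ f z v - fderiv ℝ h₁ z v := by
      rw [hev.fderiv_eq, fderiv_fun_sub hfd (hhd.restrictScalars ℝ)]
      rfl
    have e2 : fderiv ℝ h₁ z v = deriv h₁ z * v := by
      rw [(hhd.hasFDerivAt.restrictScalars ℝ).fderiv]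
      simp [mul_comm]
    have e3 := hrep₂ z hz
    rw [e1, e2] at e3
    linear_combination e3

theorem ERK (hB : ERB_stmt) (hC : ERC_stmt) (hD : ERD_stmt) (hE : ERE_stmt) : ERK_stmt := by
  intro n V G Ω hΩ hG hV hrep
  have hVi : ∀ i, ContDiffOn ℝ 1 (fun z => V z i) Ω := fun i => (contDiffOn_pi.1 hV) i
  have hGi : ∀ i, ContDiffOn ℝ ∞ (fun x : ℂ × (Fin n → ℂ) => G x.1 x.2 i) (Ω ×ˢ univ) :=
    fun i => (contDiffOn_pi.1 hG) i
  have hop : IsOpen (Ω ×ˢ (univ : Set (Fin n → ℂ))) := hΩ.prod isOpen_univ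
  have hpair : ContDiffOn ℝ 1 (fun z => (z, V z)) Ω := contDiffOn_id.prodMk hV
  have hmaps : MapsTo (fun z => (z, V z)) Ω (Ω ×ˢ (univ : Set (Fin n → ℂ))) := fun z hz => ⟨hz, mem_univ _⟩
  have hΦ : ∀ i, ContDiffOn ℝ 1 (fun z => G z (V z) i) Ω := fun i =>
    ((hGi i).of_le (by norm_cast)).comp hpair hmaps
  -- Hölder continuity of the first derivatives
  have hH : ∀ z₀ ∈ Ω, ∀ v i, ERK_H (fun z => fderiv ℝ (fun w => V w i) z v) z₀ := by
    intro z₀ hz₀ v i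
    obtain ⟨ρ, hρ, hb, hr⟩ := hrep z₀ hz₀
    obtain ⟨M, ρ', hρ', hb', hM, hcont, h, hh, hrep'⟩ := ERK_rep hB hE hΩ (hVi i) (hΦ i) hρ hb (hr i) v
    obtain ⟨C, hC'⟩ := hC ρ' M hρ'
    obtain ⟨-, -, hHol⟩ := hC' (fun ξ => fderiv ℝ (fun z => G z (V z) i) ξ v) z₀
      (hcont.aestronglyMeasurable Metric.isOpen_ball.measurableSet) hM
    have h1 : ERK_H (TC (fun ξ => fderiv ℝ (fun z => G z (V z) i) ξ v) (Metric.ball z₀ ρ')) z₀ :=
      ⟨max C 0, 1, le_max_right _ _, one_pos, fun z _ z' _ => (hHol z z').trans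
        (mul_le_mul_of_nonneg_right (le_max_left _ _) (by positivity))⟩
    have h2 : ERK_H h z₀ := by
      apply ERK_H_of_contDiffAt
      exact ((hh.contDiffOn Metric.isOpen_ball).contDiffAt
        (Metric.isOpen_ball.mem_nhds (Metric.mem_ball_self hρ'))).restrict_scalars ℝ
    exact ERK_H_congr hρ' (fun z hz => (hrep' z hz).symm) (ERK_H_add h1 h2)
  have hHV : ∀ z₀ ∈ Ω, ∀ v, ERK_H (fun z => fderiv ℝ V z v) z₀ := by
    intro z₀ hz₀ v
    obtain ⟨r, hr, hb⟩ := Metric.isOpen_iff.1 hΩ z₀ hz₀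
    apply ERK_H_pi
    intro i
    refine ERK_H_congr hr (fun z hz => ?_) (hH z₀ hz₀ v i)
    have hd : DifferentiableAt ℝ V z := (hV.differentiableOn (by norm_num)).differentiableAt (hΩ.mem_nhds (hb hz))
    have := (hasFDerivAt_pi'.1 hd.hasFDerivAt i).fderiv
    simp only [this, ContinuousLinearMap.comp_apply, ContinuousLinearMap.proj_apply]
  have hHΦ : ∀ z₀ ∈ Ω, ∀ v i, ERK_H (fun z => fderiv ℝ (fun w => G w (V w) i) z v) z₀ := by
    intro z₀ hz₀ v i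
    obtain ⟨r, hr, hb⟩ := Metric.isOpen_iff.1 hΩ z₀ hz₀
    have hA : ContDiffOn ℝ 1 (fun z => fderiv ℝ (fun x : ℂ × (Fin n → ℂ) => G x.1 x.2 i) (z, V z)) Ω := by
      have h1 : ContDiffOn ℝ 1 (fderiv ℝ (fun x : ℂ × (Fin n → ℂ) => G x.1 x.2 i)) (Ω ×ˢ univ) :=
        (hGi i).fderiv_of_isOpen hop (by norm_cast)
      exact h1.comp hpair hmaps
    have hA' : ERK_H (fun z => fderiv ℝ (fun x : ℂ × (Fin n → ℂ) => G x.1 x.2 i) (z, V z)) z₀ :=
      ERK_H_of_contDiffAt (hA.contDiffAt (hΩ.mem_nhds hz₀))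
    refine ERK_H_congr hr (fun z hz => ?_) (ERK_H_clm hA' (ERK_H_prod (ERK_H_const v z₀) (hHV z₀ hz₀ v)))
    have hd : DifferentiableAt ℝ V z := (hV.differentiableOn (by norm_num)).differentiableAt (hΩ.mem_nhds (hb hz))
    have hg : DifferentiableAt ℝ (fun x : ℂ × (Fin n → ℂ) => G x.1 x.2 i) (z, V z) :=
      ((hGi i).differentiableOn (by norm_cast)).differentiableAt (hop.mem_nhds ⟨hb hz, mem_univ _⟩)
    have hcomp : HasFDerivAt (fun w => G w (V w) i)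
        ((fderiv ℝ (fun x : ℂ × (Fin n → ℂ) => G x.1 x.2 i) (z, V z)).comp
          ((ContinuousLinearMap.id ℝ ℂ).prod (fderiv ℝ V z))) z :=
      HasFDerivAt.comp (f := fun w => (w, V w)) (g := fun x : ℂ × (Fin n → ℂ) => G x.1 x.2 i) z hg.hasFDerivAt
        ((hasFDerivAt_id z).prodMk hd.hasFDerivAt)
    rw [hcomp.fderiv]
    rfl
  have hfin : ∀ z₀ ∈ Ω, ∀ v i, ContDiffAt ℝ 1 (fun z => fderiv ℝ (fun w => V w i) z v) z₀ := by
    intro z₀ hz₀ v i
    obtain ⟨ρ, hρ, hb, hr⟩ := hrep z₀ hz₀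
    obtain ⟨M, ρ', hρ', hb', hM, hcont, h, hh, hrep'⟩ := ERK_rep hB hE hΩ (hVi i) (hΦ i) hρ hb (hr i) v
    obtain ⟨C, r, hC0, hr0, hCr⟩ := hHΦ z₀ hz₀ v i
    set s := min r ρ' with hs
    have hs0 : 0 < s := lt_min hr0 hρ'
    have hsr : Metric.ball z₀ s ⊆ Metric.ball z₀ r := Metric.ball_subset_ball (min_le_left _ _)
    have hsρ : Metric.ball z₀ s ⊆ Metric.ball z₀ ρ' := Metric.ball_subset_ball (min_le_right _ _)
    have : IsFiniteMeasure (volume.restrict (Metric.ball z₀ ρ')) :=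
      ⟨by rw [Measure.restrict_apply_univ]; exact measure_ball_lt_top⟩
    have hint : IntegrableOn (fun ξ => fderiv ℝ (fun z => G z (V z) i) ξ v) (Metric.ball z₀ ρ') :=
      Integrable.of_bound (hcont.aestronglyMeasurable Metric.isOpen_ball.measurableSet) M
        ((ae_restrict_iff' Metric.isOpen_ball.measurableSet).2 (Eventually.of_forall hM))
    obtain ⟨-, h₄, hh₄, hrep₄⟩ := hB (fun z => fderiv ℝ (fun w => V w i) z v)
      (fun ξ => fderiv ℝ (fun z => G z (V z) i) ξ v) z₀ z₀ ρ' s M h hs0 hsρ hint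
      (fun z hz => hM z (hsρ hz)) hh (fun z hz => hrep' z (hsρ hz))
    obtain ⟨hC1, -⟩ := hD (fun ξ => fderiv ℝ (fun z => G z (V z) i) ξ v) z₀ s (max M C) (1 / 2) hs0
      (by norm_num) (by norm_num) (fun z hz => (hM z (hsρ hz)).trans (le_max_left _ _))
      (fun z hz z' hz' => (hCr z (hsr hz) z' (hsr hz')).trans
        (mul_le_mul_of_nonneg_right (le_max_right _ _) (by positivity)))
    have hh4 : ContDiffOn ℝ 1 h₄ (Metric.ball z₀ s) := (hh₄.contDiffOn Metric.isOpen_ball).restrict_scalars ℝ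
    have hsum : ContDiffOn ℝ 1 (fun z => fderiv ℝ (fun w => V w i) z v) (Metric.ball z₀ s) :=
      (hC1.add hh4).congr fun z hz => hrep₄ z hz
    exact hsum.contDiffAt (Metric.isOpen_ball.mem_nhds (Metric.mem_ball_self hs0))
  rw [contDiffOn_pi]
  intro i
  have h2 : (2 : WithTop ℕ∞) = 1 + 1 := by norm_num
  rw [h2, contDiffOn_succ_iff_fderiv_of_isOpen hΩ]
  refine ⟨(hVi i).differentiableOn (by norm_num), by simp, ?_⟩
  rw [contDiffOn_clm_apply]
  intro v z hz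
  exact (hfin z hz v i).contDiffWithinAt

end

end Pool.Agent.DL
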