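import Pool.Agent.helper67.DL.SpecX

/-! # Project dl, module X03: the surface is closed in `P1 × P1` -/

namespace Pool.Agent.DL

open Matrix Complex
open scoped ComplexOrder Manifold ContDiff

noncomputable section

theorem X03_ss (z y : ℂ) : RelX (OnePoint.some z, OnePoint.some y) ↔ (1 + z ^ 4) * (1 + y ^ 2) = 2 := by
  constructor
  · rintro (⟨a, b, h, h'⟩ | ⟨b, h, h'⟩ | ⟨a, h, h'⟩)
    · rw [Prod.mk.injEq] at h
      rw [OnePoint.coe_injective h.1, OnePoint.coe_injective h.2]; exact h'
    · rw [Prod.mk.injEq] at h
      exact absurd h.1 (OnePoint.coe_ne_infty _)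
    · rw [Prod.mk.injEq] at h
      exact absurd h.2 (OnePoint.coe_ne_infty _)
  · intro h
    exact Or.inl ⟨z, y, rfl, h⟩

theorem X03_is (y : ℂ) : RelX (OnePoint.infty, OnePoint.some y) ↔ 1 + y ^ 2 = 0 := by
  constructor
  · rintro (⟨a, b, h, h'⟩ | ⟨b, h, h'⟩ | ⟨a, h, h'⟩)
    · rw [Prod.mk.injEq] at h
      exact absurd h.1.symm (OnePoint.coe_ne_infty _)
    · rw [Prod.mk.injEq] at h
      rw [OnePoint.coe_injective h.2]; exact h'
    · rw [Prod.mk.injEq] at h
      exact absurd h.1.symm (OnePoint.coe_ne_infty _)
  · intro h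
    exact Or.inr (Or.inl ⟨y, rfl, h⟩)

theorem X03_si (z : ℂ) : RelX (OnePoint.some z, OnePoint.infty) ↔ 1 + z ^ 4 = 0 := by
  constructor
  · rintro (⟨a, b, h, h'⟩ | ⟨b, h, h'⟩ | ⟨a, h, h'⟩)
    · rw [Prod.mk.injEq] at h
      exact absurd h.2.symm (OnePoint.coe_ne_infty _)
    · rw [Prod.mk.injEq] at h
      exact absurd h.2.symm (OnePoint.coe_ne_infty _)
    · rw [Prod.mk.injEq] at h
      rw [OnePoint.coe_injective h.1]; exact h'
  · intro h
    exact Or.inr (Or.inr ⟨z, rfl, h⟩)

theorem X03_ii : ¬ RelX (OnePoint.infty, OnePoint.infty) := by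
  rintro (⟨a, b, h, h'⟩ | ⟨b, h, h'⟩ | ⟨a, h, h'⟩)
  · rw [Prod.mk.injEq] at h
    exact absurd h.2.symm (OnePoint.coe_ne_infty _)
  · rw [Prod.mk.injEq] at h
    exact absurd h.2.symm (OnePoint.coe_ne_infty _)
  · rw [Prod.mk.injEq] at h
    exact absurd h.1.symm (OnePoint.coe_ne_infty _)

theorem X03_fv (z : ℂ) : fv (OnePoint.some z) = z := rfl
theorem X03_iv (z : ℂ) : iv (OnePoint.some z) = z⁻¹ := rfl
theorem X03_ivi : iv (OnePoint.infty) = 0 := rfl

/-- the local criterion -/
theorem X03_loc {U V : Set P1} {f g : P1 → ℂ} {F : ℂ × ℂ → ℂ} (hU : IsOpen U) (hV : IsOpen V)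
    (hf : ContinuousOn f U) (hg : ContinuousOn g V) (hF : Continuous F)
    (hR : ∀ a ∈ U, ∀ b ∈ V, RelX (a, b) → F (f a, g b) = 0)
    {p : P1 × P1} (h1 : p.1 ∈ U) (h2 : p.2 ∈ V) (hp : F (f p.1, g p.2) ≠ 0) :
    {q : P1 × P1 | ¬ RelX q} ∈ nhds p := by
  have hUV : U ×ˢ V ∈ nhds p := (hU.prod hV).mem_nhds ⟨h1, h2⟩
  have c1 : ContinuousAt (fun q : P1 × P1 => F (f q.1, g q.2)) p := by
    refine hF.continuousAt.comp (ContinuousAt.prodMk ?_ ?_)
    · exact (hf.continuousAt (hU.mem_nhds h1)).comp continuousAt_fst
    · exact (hg.continuousAt (hV.mem_nhds h2)).comp continuousAt_snd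
  have c2 : ∀ᶠ q in nhds p, F (f q.1, g q.2) ≠ 0 := c1.eventually_ne hp
  filter_upwards [hUV, c2] with q hq hq' hr
  exact hq' (hR q.1 hq.1 q.2 hq.2 hr)

theorem X03 (h1 : X01_stmt) : X03_stmt := by
  obtain ⟨hfv, hiv, -⟩ := h1
  have oI : IsOpen ({OnePoint.infty}ᶜ : Set P1) := isClosed_singleton.isOpen_compl
  have oZ : IsOpen ({(OnePoint.some 0 : P1)}ᶜ : Set P1) := isClosed_singleton.isOpen_compl
  have e0 : ∀ z : ℂ, z ≠ 0 → (OnePoint.some z : P1) ∈ ({(OnePoint.some 0 : P1)}ᶜ : Set P1) := by
    intro z hz h
    exact hz (OnePoint.coe_injective h)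
  have e0' : ∀ z : ℂ, (OnePoint.some z : P1) ∈ ({(OnePoint.some 0 : P1)}ᶜ : Set P1) → z ≠ 0 := by
    intro z h hz
    exact h (by rw [hz]; rfl)
  have e1 : ∀ z : ℂ, (OnePoint.some z : P1) ∈ ({OnePoint.infty}ᶜ : Set P1) := fun z => OnePoint.coe_ne_infty z
  have e2 : (OnePoint.infty : P1) ∈ ({(OnePoint.some 0 : P1)}ᶜ : Set P1) := by
    intro h
    exact OnePoint.coe_ne_infty _ (Eq.symm h)
  unfold X03_stmt
  rw [← isOpen_compl_iff, isOpen_iff_mem_nhds]
  rintro ⟨a, b⟩ hp
  change ¬ RelX (a, b) at hp
  change {q : P1 × P1 | ¬ RelX q} ∈ nhds (a, b)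
  induction a using OnePoint.rec with
  | infty =>
    induction b using OnePoint.rec with
    | infty =>
      refine X03_loc (F := fun t => (1 + t.1 ^ 4) * (1 + t.2 ^ 2) - 2 * t.1 ^ 4 * t.2 ^ 2) oZ oZ hiv hiv (by fun_prop) ?_ e2 e2 ?_
      · intro a ha b hb hr
        induction a using OnePoint.rec with
        | infty =>
          induction b using OnePoint.rec with
          | infty => exact absurd hr X03_ii
          | coe y =>
            have hy := e0' _ hb
            have h := (X03_is y).1 hr
            simp only [X03_ivi, X03_iv]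
            field_simp
            linear_combination h
        | coe z =>
          have hz := e0' _ ha
          induction b using OnePoint.rec with
          | infty =>
            have h := (X03_si z).1 hr
            simp only [X03_ivi, X03_iv]
            field_simp
            linear_combination h
          | coe y =>
            have hy := e0' _ hb
            have h := (X03_ss z y).1 hr
            simp only [X03_iv]
            field_simp
            linear_combination h
      · simp [X03_ivi]
    | coe y =>
      refine X03_loc (F := fun t => (1 + t.1 ^ 4) * (1 + t.2 ^ 2) - 2 * t.1 ^ 4) oZ oI hiv hfv (by fun_prop) ?_ e2 (e1 y) ?_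
      · intro a ha b hb hr
        induction b using OnePoint.rec with
        | infty => exact absurd rfl hb
        | coe y =>
          induction a using OnePoint.rec with
          | infty =>
            have h := (X03_is y).1 hr
            simp only [X03_ivi, X03_fv]
            linear_combination h
          | coe z =>
            have hz := e0' _ ha
            have h := (X03_ss z y).1 hr
            simp only [X03_iv, X03_fv]
            field_simp
            linear_combination h
      · simp only [X03_ivi, X03_fv]
        intro h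
        apply hp
        rw [X03_is]
        linear_combination h
  | coe z =>
    induction b using OnePoint.rec with
    | infty =>
      refine X03_loc (F := fun t => (1 + t.1 ^ 4) * (1 + t.2 ^ 2) - 2 * t.2 ^ 2) oI oZ hfv hiv (by fun_prop) ?_ (e1 z) e2 ?_
      · intro a ha b hb hr
        induction a using OnePoint.rec with
        | infty => exact absurd rfl ha
        | coe z =>
          induction b using OnePoint.rec with
          | infty =>
            have h := (X03_si z).1 hr
            simp only [X03_ivi, X03_fv]
            linear_combination h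
          | coe y =>
            have hy := e0' _ hb
            have h := (X03_ss z y).1 hr
            simp only [X03_iv, X03_fv]
            field_simp
            linear_combination h
      · simp only [X03_ivi, X03_fv]
        intro h
        apply hp
        rw [X03_si]
        linear_combination h
    | coe y =>
      refine X03_loc (F := fun t => (1 + t.1 ^ 4) * (1 + t.2 ^ 2) - 2) oI oI hfv hfv (by fun_prop) ?_ (e1 z) (e1 y) ?_
      · intro a ha b hb hr
        induction a using OnePoint.rec with
        | infty => exact absurd rfl ha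
        | coe z =>
          induction b using OnePoint.rec with
          | infty => exact absurd rfl hb
          | coe y =>
            have h := (X03_ss z y).1 hr
            simp only [X03_fv]
            linear_combination h
      · simp only [X03_fv]
        intro h
        apply hp
        rw [X03_ss]
        linear_combination h

end

end Pool.Agent.DL
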