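import Pool.Agent.helper67.DL.SpecX
import Mathlib.Analysis.Convex.PathConnected

/-! # Project dl, module X10: the targets are star-shaped -/

namespace Pool.Agent.DL

open Matrix Complex
open scoped ComplexOrder Manifold ContDiff

noncomputable section

theorem X10_gen (u : ℂ) : (1 + u ≠ 0 ∧ mm u ∈ slitPlane) ↔ ¬ (u.im = 0 ∧ 1 ≤ |u.re|) := by
  by_cases h1 : 1 + u = 0
  · have hu : u = -1 := by linear_combination h1
    subst hu
    simp
  · have hpos : 0 < normSq (1 + u) := normSq_pos.2 h1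
    have hre : (mm u).re = (1 - (u.re ^ 2 + u.im ^ 2)) / normSq (1 + u) := by
      unfold mm
      rw [div_re]
      simp only [sub_re, one_re, add_re, sub_im, one_im, add_im]
      rw [← add_div]
      congr 1
      ring
    have him : (mm u).im = (-2 * u.im) / normSq (1 + u) := by
      unfold mm
      rw [div_im]
      simp only [sub_re, one_re, add_re, sub_im, one_im, add_im]
      rw [← sub_div]
      congr 1
      ring
    rw [mem_slitPlane_iff, hre, him]
    constructor
    · rintro ⟨-, h | h⟩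
      · rintro ⟨h3, h4⟩
        have h5 : 0 < 1 - (u.re ^ 2 + u.im ^ 2) := by
          by_contra hcon
          exact absurd h (not_lt.2 (div_nonpos_of_nonpos_of_nonneg (not_lt.1 hcon) hpos.le))
        have h6 : 1 ≤ u.re ^ 2 := by
          rw [← sq_abs]
          nlinarith
        nlinarith [sq_nonneg u.im]
      · rintro ⟨h3, h4⟩
        rw [h3] at h
        simp at h
    · intro h
      refine ⟨h1, ?_⟩
      by_cases h3 : u.im = 0
      · left
        have h4 : |u.re| < 1 := by
          by_contra hcon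
          exact h ⟨h3, not_lt.1 hcon⟩
        apply div_pos _ hpos
        have h5 : u.re ^ 2 < 1 := by
          rw [← sq_abs]
          nlinarith [abs_nonneg u.re]
        rw [h3]
        nlinarith
      · right
        intro h4
        rw [div_eq_zero_iff] at h4
        rcases h4 with h4 | h4
        · exact h3 (by linarith)
        · exact hpos.ne' h4

theorem X10_pre {n : ℕ} (S : Set ℂ) (hn : 1 ≤ n) (h : ∀ x, x ∈ S ↔ ¬ ((x ^ n).im = 0 ∧ 1 ≤ |(x ^ n).re|)) :
    IsPreconnected S := by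
  have hs : StarConvex ℝ (0 : ℂ) S := by
    intro x hx a b ha hb hab
    rw [smul_zero, zero_add, h]
    rintro ⟨h1, h2⟩
    rw [h] at hx
    apply hx
    have e : (b • x) ^ n = ((b ^ n : ℝ) : ℂ) * x ^ n := by
      rw [real_smul, mul_pow]
      push_cast
      rfl
    rw [e, re_ofReal_mul, abs_mul] at h2
    rw [e, im_ofReal_mul] at h1
    have hb1 : b ≤ 1 := by linarith
    have hbn0 : 0 ≤ b ^ n := pow_nonneg hb n
    have hbn : b ^ n ≤ 1 := pow_le_one₀ hb hb1
    have hbne : b ^ n ≠ 0 := by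
      intro h0
      rw [h0, abs_zero, zero_mul] at h2
      linarith
    refine ⟨(mul_eq_zero.1 h1).resolve_left hbne, ?_⟩
    rw [abs_of_nonneg hbn0] at h2
    calc 1 ≤ b ^ n * |(x ^ n).re| := h2
      _ ≤ 1 * |(x ^ n).re| := by gcongr
      _ = _ := one_mul _
  have hne : (0 : ℂ) ∈ S := by
    refine (h 0).2 ?_
    rw [zero_pow (by omega)]
    simp
  exact (hs.isPathConnected hne).isConnected.isPreconnected

theorem X10_ball {n : ℕ} (hn : 1 ≤ n) (x : ℂ) (hx : ‖x‖ < 1) : ¬ ((x ^ n).im = 0 ∧ 1 ≤ |(x ^ n).re|) := by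
  rintro ⟨-, h⟩
  have h1 : |(x ^ n).re| ≤ ‖x ^ n‖ := abs_re_le_norm _
  rw [norm_pow] at h1
  have h2 : ‖x‖ ^ n < 1 := pow_lt_one₀ (norm_nonneg _) hx (by omega)
  linarith

theorem X10 : X10_stmt := by
  have hg : ∀ x, x ∈ gT ↔ ¬ ((x ^ 4).im = 0 ∧ 1 ≤ |(x ^ 4).re|) := fun x => X10_gen (x ^ 4)
  have he : ∀ y, y ∈ eT ↔ ¬ ((y ^ 2).im = 0 ∧ 1 ≤ |(y ^ 2).re|) := fun y => X10_gen (y ^ 2)
  refine ⟨hg, he, X10_pre gT (by norm_num) hg, X10_pre eT (by norm_num) he, ?_, ?_⟩
  · intro x hx
    exact (hg x).2 (X10_ball (by norm_num) x hx)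
  · intro x hx
    exact (he x).2 (X10_ball (by norm_num) x hx)

end

end Pool.Agent.DL
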