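import Pool.Agent.helper67.DL.SpecX

/-! # Project dl, modules X13, X14: differentials, products, locality -/

namespace Pool.Agent.DL

open Matrix Complex
open scoped ComplexOrder Manifold ContDiff

noncomputable section

theorem X13_trans {X : Type} [TopologicalSpace X] [ChartedSpace ℂ X] (hM : IsManifold 𝓘(ℂ) ω X)
    {e e' : OpenPartialHomeomorph X ℂ} (he : e ∈ atlas ℂ X) (he' : e' ∈ atlas ℂ X) :
    DifferentiableOn ℂ (fun z => e' (e.symm z)) (e.target ∩ e.symm ⁻¹' e'.source) := by
  have h := StructureGroupoid.compatible (contDiffGroupoid ω 𝓘(ℂ)) he he'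
  rw [contDiffGroupoid, mem_groupoid_of_pregroupoid] at h
  have h1 : ContDiffOn ℂ ω (𝓘(ℂ) ∘ (e.symm ≫ₕ e') ∘ 𝓘(ℂ).symm)
    (𝓘(ℂ).symm ⁻¹' (e.symm ≫ₕ e').source ∩ Set.range 𝓘(ℂ)) := h.1
  have h2 := h1.differentiableOn (by simp)
  refine DifferentiableOn.mono h2 ?_
  intro z hz
  refine ⟨?_, z, rfl⟩
  change z ∈ (e.symm ≫ₕ e').source
  rw [OpenPartialHomeomorph.trans_source]
  exact hz

theorem X13_open {X : Type} [TopologicalSpace X] (e : OpenPartialHomeomorph X ℂ) {U : Set X} (hU : IsOpen U) :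
    IsOpen (e.target ∩ e.symm ⁻¹' U) :=
  e.symm.isOpen_inter_preimage hU

theorem X13 : X13_stmt := by
  intro X _ _ hM U f hU hf
  refine ⟨?_, ?_⟩
  · intro e he
    have h1 := (hf e he).deriv (X13_open e hU)
    refine h1.congr ?_
    intro z hz
    change deriv (fun w => f (e.symm w)) (e (e.symm z)) = _
    rw [e.right_inv hz.1]
  · intro e he e' he' x hx h1 h2
    change deriv (fun w => f (e.symm w)) (e x) = deriv (fun w => f (e'.symm w)) (e' x) *
      deriv (fun z => e' (e.symm z)) (e x) ^ 1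
    rw [pow_one]
    have hW : IsOpen (e.target ∩ e.symm ⁻¹' e'.source) := X13_open e e'.open_source
    have hxW : e x ∈ e.target ∩ e.symm ⁻¹' e'.source := ⟨e.map_source h1, by
      rw [Set.mem_preimage, e.left_inv h1]; exact h2⟩
    have hT : DifferentiableAt ℂ (fun z => e' (e.symm z)) (e x) :=
      (X13_trans hM he he').differentiableAt (hW.mem_nhds hxW)
    have hx' : e' x ∈ e'.target ∩ e'.symm ⁻¹' U := ⟨e'.map_source h2, by
      rw [Set.mem_preimage, e'.left_inv h2]; exact hx⟩
    have hF : DifferentiableAt ℂ (fun w => f (e'.symm w)) (e' x) :=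
      (hf e' he').differentiableAt ((X13_open e' hU).mem_nhds hx')
    have hval : e' (e.symm (e x)) = e' x := by rw [e.left_inv h1]
    have hF' : DifferentiableAt ℂ (fun w => f (e'.symm w)) (e' (e.symm (e x))) := by rw [hval]; exact hF
    have hc := deriv_comp (e x) hF' hT
    rw [hval] at hc
    rw [← hc]
    apply Filter.EventuallyEq.deriv_eq
    filter_upwards [hW.mem_nhds hxW] with z hz
    change f (e.symm z) = f (e'.symm (e' (e.symm z)))
    rw [e'.left_inv hz.2]

theorem X14 : X14_stmt := by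
  intro X _ _
  refine ⟨?_, ?_, ?_, ?_, ?_, ?_, ?_⟩
  · intro U m q f _ hf hq
    refine ⟨?_, ?_⟩
    · intro e he
      exact (hf e he).mul (hq.1 e he)
    · intro e he e' he' x hx h1 h2
      change f x * q e x = f x * q e' x * _
      rw [hq.2 e he e' he' x hx h1 h2]
      ring
  · intro U V m q hV hq
    refine ⟨?_, ?_⟩
    · intro e he
      exact (hq.1 e he).mono fun z hz => ⟨hz.1, hV hz.2⟩
    · intro e he e' he' x hx h1 h2
      exact hq.2 e he e' he' x (hV hx) h1 h2
  · intro U V f hV hf e he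
    exact (hf e he).mono fun z hz => ⟨hz.1, hV hz.2⟩
  · intro U f _ hf h0 e he
    exact (hf e he).inv fun z hz => h0 _ hz.2
  · intro U f g hf hg
    exact ⟨fun e he => (hf e he).mul (hg e he), fun e he => (hf e he).add (hg e he)⟩
  · intro U a e _
    exact differentiableOn_const a
  · intro ι U m q q' hU hq' h
    refine ⟨?_, ?_⟩
    · intro e he z hz
      obtain ⟨hz1, hz2⟩ := hz
      rw [Set.mem_preimage, Set.mem_iUnion] at hz2
      obtain ⟨i, hi⟩ := hz2
      have hW := X13_open e (hU i)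
      have hzW : z ∈ e.target ∩ e.symm ⁻¹' U i := ⟨hz1, hi⟩
      have h1 := ((hq' i).1 e he).differentiableAt (hW.mem_nhds hzW)
      apply DifferentiableAt.differentiableWithinAt
      refine h1.congr_of_eventuallyEq ?_
      filter_upwards [hW.mem_nhds hzW] with w hw
      exact h i e he _ hw.2 (e.map_target hw.1)
    · intro e he e' he' x hx h1 h2
      obtain ⟨i, hi⟩ := Set.mem_iUnion.1 hx
      rw [h i e he x hi h1, h i e' he' x hi h2]
      exact (hq' i).2 e he e' he' x hi h1 h2

end

end Pool.Agent.DL
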