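import Pool.Agent.helper67.DL.SpecX

/-! # Project dl, module X23: assembly of the explicit surface -/

namespace Pool.Agent.DL

open Matrix Complex
open scoped ComplexOrder Manifold ContDiff

noncomputable section

theorem X23_ch (h4 : X04_stmt) (h5 : X05_stmt) : ∃ ch : Ix → OpenPartialHomeomorph XT ℂ, IsCh ch := by
  choose f hf using h4
  choose g hg using h5
  refine ⟨fun i => match i with
    | Sum.inl c => f c.1 c.2
    | Sum.inr d => g d.1 d.2, ?_, ?_⟩
  · rintro ⟨c, hc⟩
    exact hf c hc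
  · rintro ⟨d, hd⟩
    exact hg d hd

theorem X23_cov {ch : Ix → OpenPartialHomeomorph XT ℂ} (h : IsCh ch) (h6 : X06_stmt) (p : XT) :
    ∃ i, p ∈ (ch i).source := by
  rcases h6 p with ⟨c, hc, hp⟩ | ⟨d, hd, hp⟩
  · exact ⟨Sum.inl ⟨c, hc⟩, by rw [(h.1 ⟨c, hc⟩).1]; exact hp⟩
  · exact ⟨Sum.inr ⟨d, hd⟩, by rw [(h.2 ⟨d, hd⟩).1]; exact hp⟩

theorem X23_good {ch : Ix → OpenPartialHomeomorph XT ℂ} (h : IsCh ch) (h6 : X06_stmt) :
    ∃ cs : ChartedSpace ℂ XT, GoodX cs ch := by
  choose k hk using X23_cov h h6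
  exact ⟨{ atlas := Set.range ch
           chartAt := fun p => ch (k p)
           mem_chart_source := hk
           chart_mem_atlas := fun p => ⟨k p, rfl⟩ }, h, rfl⟩

theorem X23_relZ {p : XT} (h : p ∉ uZ) : p ∈ uN := by
  intro h'
  have h1 : p.1.1 = OnePoint.infty := not_not.1 h
  rw [h1] at h'
  exact OnePoint.coe_ne_infty _ h'.symm

theorem X23_mul {p : XT} (h : p ∈ uZ ∩ uN) : fZ p * fN p = 1 := by
  obtain ⟨h1, h2⟩ := h
  obtain ⟨⟨a, b⟩, hp⟩ := p
  change a ≠ OnePoint.infty at h1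
  change a ≠ OnePoint.some 0 at h2
  change fv a * iv a = 1
  induction a using OnePoint.rec with
  | infty => exact absurd rfl h1
  | coe z =>
    have hz : z ≠ 0 := by
      rintro rfl
      exact h2 rfl
    change z * z⁻¹ = 1
    exact mul_inv_cancel₀ hz

theorem X23 (h3 : X03_stmt) (h4 : X04_stmt) (h5 : X05_stmt) (h6 : X06_stmt) (h9 : X09_stmt) (h12 : X12_stmt)
    (h15 : X15_stmt) (h16 : X16_stmt) (h17 : X17_stmt) (h18 : X18_stmt) (h19 : X19_stmt) (h20 : X20_stmt)
    (h21 : X21_stmt) (h22 : X22_stmt) : X23_stmt := by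
  obtain ⟨ch, hch⟩ := X23_ch h4 h5
  obtain ⟨cs, hg⟩ := X23_good hch h6
  have hol : HolX := h9 cs ch hg
  have hcpt : CompactSpace XT := isCompact_iff_compactSpace.1 (IsClosed.isCompact h3)
  have hT2 : T2Space XT := inferInstance
  have hconn : ConnectedSpace XT := h12 ch hch
  have d0 := h15 cs hol
  have d1 := h16 cs hol
  obtain ⟨n0, n1⟩ := h18 cs ch hg d0 d1
  obtain ⟨tc, tf, tm, th⟩ := h19
  have th' := th cs ch hg hol
  obtain ⟨t0, t1⟩ := h20 cs hol th'
  obtain ⟨dz, dn⟩ := h21 ch hch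
  obtain ⟨k1, k2, k3⟩ := h22 ch hch _ rfl
  refine ⟨XT, inferInstance, cs, ⟨hol.man, hcpt, hT2, hconn⟩, DX ch, ?_⟩
  exact
    { open0 := hol.oZ
      open1 := hol.oN
      cover := by
        intro x
        by_cases hx : x ∈ uZ
        · exact Or.inl hx
        · exact Or.inr (X23_relZ hx)
      dense0 := dz
      dense1 := dn
      holo0 := hol.hZ
      holo1 := hol.hN
      mul := fun x hx => X23_mul hx
      dif0 := d0
      dif1 := d1
      ne0 := n0
      ne1 := n1
      rel := h17 cs hol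
      tauc := tc
      tau0 := fun x hx => ⟨(tm x).1.2 hx, (tf x).1⟩
      tau1 := fun x hx => ⟨(tm x).2.1.2 hx, (tf x).2.1⟩
      tauh := th'
      taue0 := t0
      taue1 := t1
      x0mem := OnePoint.coe_ne_infty _
      x0z := rfl
      x0t := by
        apply Subtype.ext
        change (OnePoint.some (-0), OnePoint.some 1) = ((OnePoint.some 0, OnePoint.some 1) : P1 × P1)
        rw [neg_zero]
      x1mem := fun h => OnePoint.coe_ne_infty _ (Eq.symm h)
      x1z := rfl
      e0a := by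
        change ch (Sum.inl ⟨1, by norm_num⟩) ∈ cs.atlas
        rw [hg.2]
        exact ⟨_, rfl⟩
      e0t := k1
      e0z := k2
      e0x := k3 }

end

end Pool.Agent.DL
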